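import Pool.Agent.K9h46.ZO.Nat1

/-!
# One set of frequencies controls all: the Liouville function, natural averages

`Λ(E, N)` is the upper limit, as `M → ∞`, of the natural averages over `m ≤ M` of the largest Fourier coefficient of the
Liouville function on the window `[m, m + N]` at the frequencies in `E`; Q1 asks for `Λ(ℝ/ℤ, N) → 0`. For every set `E`
of frequencies, with `|E|` the measure of its closure, `|E| Λ(ℝ/ℤ, N) ≤ Λ(E, K) + ε` for every fixed `K` and all large
`N`; the same for all moments. So `Λ(E, K) → 0` along some `K`, for ONE set `E` of positive measure, gives Q1.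

Proof. A large Fourier coefficient at `α` on a long window goes down to the window divided by `p` and the frequency `p α`,
for most primes `p` (Turán-Kubilius); unless `α` is near a fraction with a small denominator, the multiple `p α` is near
`E` for nearly the fraction `|E|` of the primes `p` (exponential sums over primes). The fractions are treated by the
theorem of Matomäki, Radziwiłł and Tao in short windows (proved in the starting files).
-/

set_option autoImplicit false

open Finset MeasureTheory Filter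

namespace Pool.Agent.Results.MP_a9a441_nt.OneSetNaturalAverages

/-- The Liouville function `(-1) ^ Ω(n)`, `Ω(n)` the number of prime factors of `n` counted with multiplicity. -/
noncomputable def liouville (n : ℕ) : ℂ := (-1) ^ n.primeFactorsList.length

/-- The supremum over `α ∈ E` of `|(1/(N+1)) ∑_{m ≤ n ≤ m+N} λ(n) e(n α)|`, where `e(n α) = exp(2 π i n α)` is
Mathlib's `fourier n α`. -/
noncomputable def localSup (E : Set UnitAddCircle) (N m : ℕ) : ℝ :=
  ⨆ α : E, ‖(1 / ((N : ℂ) + 1)) * ∑ n ∈ Icc m (m + N), liouville n * fourier (n : ℤ) (α : UnitAddCircle)‖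

/-- `Λ_r(E, N)`: the upper limit, as `M → ∞`, of `(1/M) ∑_{m ≤ M} (localSup E N m) ^ r`. -/
noncomputable def upperMoment (r : ℕ) (E : Set UnitAddCircle) (N : ℕ) : ℝ :=
  limsup (fun M : ℕ => (1 / (M : ℝ)) * ∑ m ∈ Icc 1 M, localSup E N m ^ r) atTop

section proof

open Polynomial
open Pool.Agent.K9h46.ZO
open Pool.Agent.H376R2.MR (lam)
open Pool.Agent.Helper44K9.FU
open Pool.Agent.Helper44K9.FU.FL
open Pool.Agent.H807R2.Dav (ee)

lemma lam_eq (n : ℕ) : ((lam n : ℤ) : ℂ) = liouville n := by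
  unfold lam liouville
  rw [ArithmeticFunction.cardFactors_apply]
  push_cast
  rfl

lemma fourier_eq (t : ℝ) (n : ℕ) : (fourier (n : ℤ) (t : UnitAddCircle) : ℂ) = ee ((n : ℝ) * t) := by
  rw [fourier_coe_apply]
  unfold ee
  congr 1
  push_cast
  ring

lemma term_eq (t : ℝ) (N n : ℕ) :
    ‖(1 / ((N : ℂ) + 1)) * ∑ k ∈ Icc (n + 1) (n + 1 + N), liouville k * fourier (k : ℤ) (t : UnitAddCircle)‖ =
      ‖∑ k ∈ Ioc n (n + (N + 1)), ((lam k : ℤ) : ℂ) * ee ((k : ℝ) * t)‖ / ((N + 1 : ℕ) : ℝ) := by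
  have h1 : Icc (n + 1) (n + 1 + N) = Ioc n (n + (N + 1)) := by
    ext k
    rw [mem_Icc, mem_Ioc]
    omega
  rw [h1, norm_mul]
  have h2 : ‖(1 : ℂ) / ((N : ℂ) + 1)‖ = 1 / ((N + 1 : ℕ) : ℝ) := by
    rw [norm_div, norm_one]
    have : ((N : ℂ) + 1) = ((N + 1 : ℕ) : ℂ) := by push_cast; rfl
    rw [this, Complex.norm_natCast]
  rw [h2, one_div, inv_mul_eq_div]
  congr 2
  exact sum_congr rfl fun k _ => by rw [lam_eq, fourier_eq]

lemma lam_ml : ML (fun n => (lam n : ℂ)) := Or.inr rfl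

lemma localSup_eq (E : Set UnitAddCircle) (N n : ℕ) :
    localSup E N (n + 1) = wSup 1 E (fun n => (lam n : ℂ)) n (N + 1) / ((N + 1 : ℕ) : ℝ) := by
  have hN0 : (0 : ℝ) < ((N + 1 : ℕ) : ℝ) := by positivity
  have hf := lam_ml.mul.1
  have hval : ∀ t : ℝ, (t : UnitAddCircle) ∈ E →
      ‖(1 / ((N : ℂ) + 1)) * ∑ k ∈ Icc (n + 1) (n + 1 + N), liouville k * fourier (k : ℤ) (t : UnitAddCircle)‖ ≤
        wSup 1 E (fun n => (lam n : ℂ)) n (N + 1) / ((N + 1 : ℕ) : ℝ) := by
    intro t ht
    rw [term_eq]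
    refine div_le_div_of_nonneg_right ?_ hN0.le
    have h1 : (C t * X : ℝ[X]).natDegree ≤ 1 := (natDegree_C_mul_le _ _).trans natDegree_X_le
    have h2 : (C t * X : ℝ[X]).coeff 1 = t := by simp
    rw [← W_one (fun n => (lam n : ℂ)) h1 (α := t) (by rw [h2]) n (N + 1)]
    exact le_wSup hf n (N + 1) h1 (by rw [h2]; exact ht)
  have hval' : ∀ α : E,
      ‖(1 / ((N : ℂ) + 1)) * ∑ k ∈ Icc (n + 1) (n + 1 + N), liouville k * fourier (k : ℤ) (α : UnitAddCircle)‖ ≤
        wSup 1 E (fun n => (lam n : ℂ)) n (N + 1) / ((N + 1 : ℕ) : ℝ) := by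
    rintro ⟨α, hα⟩
    obtain ⟨t, rfl⟩ := QuotientAddGroup.mk_surjective α
    exact hval t hα
  refine le_antisymm (Real.iSup_le hval' (div_nonneg (wSup_nonneg _ _) hN0.le)) ?_
  rw [div_le_iff₀ hN0]
  refine wSup_le (mul_nonneg (Real.iSup_nonneg fun _ => norm_nonneg _) hN0.le) fun P hP hPE => ?_
  rw [W_one (fun n => (lam n : ℂ)) hP (α := P.coeff 1) rfl, ← div_le_iff₀ hN0, ← term_eq]
  exact le_ciSup (f := fun α : E =>
    ‖(1 / ((N : ℂ) + 1)) * ∑ k ∈ Icc (n + 1) (n + 1 + N), liouville k * fourier (k : ℤ) (α : UnitAddCircle)‖)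
    ⟨_, Set.forall_mem_range.2 hval'⟩ ⟨_, hPE⟩

lemma moment_eq (r : ℕ) (E : Set UnitAddCircle) (N : ℕ) :
    upperMoment r E N = up (fun n => (wSup 1 E (fun n => (lam n : ℂ)) n (N + 1) / ((N + 1 : ℕ) : ℝ)) ^ r) := by
  unfold upperMoment up
  congr 1
  funext M
  congr 1
  have h1 : Icc 1 M = (range M).image (fun n => n + 1) := by
    ext m
    simp only [mem_Icc, mem_image, mem_range]
    constructor
    · intro h
      exact ⟨m - 1, by omega, by omega⟩
    · rintro ⟨j, hj, rfl⟩
      omega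
  rw [h1, sum_image fun a _ b _ hab => by omega]
  exact sum_congr rfl fun n _ => by rw [localSup_eq]

end proof

/-- **One set of frequencies controls all** (natural averages, all moments). -/
theorem result (r : ℕ) (hr : 1 ≤ r) (E : Set UnitAddCircle) (K : ℕ) (ε : ℝ) (hε : 0 < ε) :
    ∃ N₀ : ℕ, ∀ N : ℕ, N₀ ≤ N →
      (volume (closure E)).toReal * upperMoment r Set.univ N ≤ upperMoment r E K + ε := by
  obtain ⟨H₀, hH₀⟩ := Pool.Agent.K9h46.ZO.nat_one lam_ml hr E (K := K + 1) (by omega) hε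
  refine ⟨H₀, fun N hN => ?_⟩
  rw [moment_eq, moment_eq]
  exact hH₀ (N + 1) (by omega)

end Pool.Agent.Results.MP_a9a441_nt.OneSetNaturalAverages
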